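import Pool.Agent.H49SE.Red

/-! Let `f ∈ ℚ[X]` have the simple rational roots `r ∈ s`, among others (nothing is assumed on the other
roots of `f`), and let `M ≥ 1`. Let `k = 3` and `|s| ≥ 3`, or `k = 2` and `|s| ≥ 4`. For all but
`C N ^ ((5 - k) / |s|) (1 + log N) ^ 405` of the integers `D` with `|D| ≤ N`, none of the superelliptic
curves `D y ^ m = f x`, `m ≥ k`, for which `D` is `m`-free, has a point `(x, y)` with `M x` and `y`
integers and `y ≠ 0`. -/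

set_option autoImplicit false

namespace Pool.Agent.Results.MP_821da1_nt.EveryExponent

open Polynomial

theorem result (f : ℚ[X]) (s : Finset ℚ) (hs : ∀ r ∈ s, f.rootMultiplicity r = 1) (k : ℕ)
    (hk : k = 2 ∧ 4 ≤ s.card ∨ k = 3 ∧ 3 ≤ s.card) (M : ℕ) (hM : 0 < M) :
    ∃ C : ℝ, ∀ N : ℕ, 1 ≤ N →
      ({D : ℤ | |D| ≤ N ∧ ∃ (m : ℕ) (x : ℚ) (y : ℤ), k ≤ m ∧ (∀ d : ℤ, d ^ m ∣ D → IsUnit d) ∧ y ≠ 0 ∧
        (∃ z : ℤ, (M : ℚ) * x = z) ∧ (D : ℚ) * (y : ℚ) ^ m = f.eval x}.ncard : ℝ) ≤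
      C * (N : ℝ) ^ ((5 - k : ℝ) / s.card) * (1 + Real.log N) ^ 405 :=
  Pool.Agent.H49SE.main f s hs k hk M hM

end Pool.Agent.Results.MP_821da1_nt.EveryExponent
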