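import Pool.Agent.H14N.Main
import Pool.Agent.H14P.Bnd

/-!
# An effective theorem for all curves covering at least 20.97% of the hyperelliptic curves near every
# given one, over infinitely many number fields at once

Let `F` be a number field and `g ≥ 1`. We consider all the curves `C : y² = f(x)` of genus `g` over `F`,
`f` monic of degree `2 g + 1` with integral coefficients, `a_{2 g} = 0`, and minimal, ordered by height.

Theorem. Let `f₀` be ANY of these polynomials, `n` ANY odd number (or any number at all, if `y² = f₀(x)` is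
regular over `2`) and `ε > 0`. There are `N` and a union `R` of residue classes modulo `N`, inside the class
of `f₀` modulo `n`, such that the family of the `f` in `R` whose discriminant is not divisible by the square
of a prime which does not divide `N` contains a positive proportion of all curves, and the following holds,
if a finite extension `M` of `F` is called admissible for `f` when it is Galois of 2-power degree, the primes
over `N` and the real places of `F` split completely in `M` and `f` is irreducible modulo the primes of `F`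
which are ramified in `M` (for instance `M = F`):

* for every member `f` of the family there are infinitely many prime numbers `l` such that `M(√l)` is
  admissible for every admissible `M`;
* for all large heights the proportion of those members `f` of the family for which for EVERY admissible
  `M` there is no point on `y² = f(x)` with coordinates in `M`, and on every irreducible plane curve `G = 0`
  over a field `E` between `F` and `M` which has a rational map `(P / R, Q / R ^ (g + 1))` to `C` all points
  with coordinates in `M` satisfy `R = 0`, and all the conjugates of their coordinates are less than an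
  explicit bound which depends only on `G` and `R`, is at least `C_{2,0} - ε`, where
  `C_{2,0} = ∏_{j ≥ 0} (1 + 2^{-j})^{-1} = 0.2097…` is the probability, conjectured by Poonen and Rains, that
  the 2-Selmer group is zero.

In particular the integral points over `M` (and even all rational points over `M`) of all these plane
curves are effectively bounded, with a bound which does not depend on `M`.

The proof. By project JN (helper18, helper68 and many seats) the 2-Selmer group of the Jacobian over `M` is
zero for every admissible `M` for the given proportion of the members of such a family near `f₀`. If `n` is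
odd, `f₀` may be changed such that `y² = f₀(x)` is regular at the primes over two, and then the same holds for
all members of the family. If `P` is a point of `C` over `M` and `w` is a place of `M` over `2`, so that
`M_w = F_v`, then the class of `P` is divisible by all powers of two in the Picard group of
`F_v[x, y] / (y² - f)`. As `y² = f(x)` is regular over two, an infinitely divisible class would give an
isotropic subspace of too large dimension for a nonsingular quadratic form over the residue field, or a point
of odd order, which is impossible (`H14P/Loc.lean`, `Loc2.lean`, `Loc3.lean`, `Sat.lean`).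
-/

set_option autoImplicit false
set_option linter.all false

namespace Pool.Agent.Results.MP_821da1_nt.NearEveryCurve

open NumberField IsDedekindDomain Polynomial
open scoped Classical IntermediateField Pointwise Polynomial.Bivariate NNReal

section family

variable (F : Type) [Field F] [NumberField F] (g : ℕ)

/-- All curves `y² = f(x)` with `f` monic of degree `2 g + 1`, with integral coefficients `a_j`,
`a_{2 g} = 0`, without multiple roots, and minimal: no nonzero prime ideal `𝔭` satisfies
`𝔭 ^ (2 (2 g + 1 - j)) ∣ a_j` for all `j`. -/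
def Curves : Set (𝓞 F)[X] :=
  {f | f.Monic ∧ f.natDegree = 2 * g + 1 ∧ f.coeff (2 * g) = 0 ∧
    (f.map (algebraMap (𝓞 F) F)).Separable ∧
    ∀ 𝔭 : Ideal (𝓞 F), 𝔭.IsPrime → 𝔭 ≠ ⊥ →
      ¬ ∀ j ≤ 2 * g, f.coeff j ∈ 𝔭 ^ (2 * (2 * g + 1 - j))}

/-- The curves of height at most `B`: all the conjugates of the coefficient `a_j` are at
most `B ^ (2 g + 1 - j)` in absolute value, for all `j`. -/
def UpTo (B : ℝ) : Set (𝓞 F)[X] :=
  {f ∈ Curves F g | ∀ j ≤ 2 * g, ∀ σ : F →+* ℂ,
    ‖σ ((f.coeff j : 𝓞 F) : F)‖ ≤ B ^ (2 * g + 1 - j)}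

variable {F}

/-- `y² = f(x)` is regular over two: `f` is not congruent to a square modulo `𝔪²` for any maximal ideal
`𝔪` of the polynomial ring which contains `2`. -/
def RegularOverTwo (f : (𝓞 F)[X]) : Prop :=
  ∀ 𝔪 : Ideal (𝓞 F)[X], 𝔪.IsMaximal → (2 : (𝓞 F)[X]) ∈ 𝔪 → ∀ V : (𝓞 F)[X], f - V ^ 2 ∉ 𝔪 ^ 2

/-- `R` is a union of residue classes modulo `N`. -/
def Periodic (N : ℕ) (R : Set (𝓞 F)[X]) : Prop :=
  ∀ f f' : (𝓞 F)[X], f ∈ R → (∀ j, (N : 𝓞 F) ∣ f'.coeff j - f.coeff j) → f' ∈ R

/-- The residue class of `f₀` modulo `n`. -/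
def ClassOf (n : ℕ) (f₀ : (𝓞 F)[X]) : Set (𝓞 F)[X] :=
  {f | ∀ j, (n : 𝓞 F) ∣ f.coeff j - f₀.coeff j}

/-- The discriminant of `f` (up to sign): the resultant of `f` and its derivative. -/
noncomputable def disc (f : (𝓞 F)[X]) : 𝓞 F := f.resultant (derivative f) (2 * g + 1) (2 * g)

/-- The family given by `N` and `R`: the monic polynomials of degree `2 g + 1` with `a_{2 g} = 0` in `R`
whose discriminant is not zero and is not divisible by the square of a prime which does not divide `N`. -/
def Family (N : ℕ) (R : Set (𝓞 F)[X]) : Set (𝓞 F)[X] :=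
  {f | f.Monic ∧ f.natDegree = 2 * g + 1 ∧ f.coeff (2 * g) = 0 ∧ f ∈ R ∧ disc g f ≠ 0 ∧
    ∀ v : HeightOneSpectrum (𝓞 F), (N : 𝓞 F) ∉ v.asIdeal → disc g f ∉ v.asIdeal ^ 2}

end family

section admissible

variable (F : Type) {M : Type} [Field F] [NumberField F] [Field M] [NumberField M] [Algebra F M]

/-- The decomposition group of the prime `w` of `M` over `F` is trivial. -/
def SplitAt (w : HeightOneSpectrum (𝓞 M)) : Prop :=
  MulAction.stabilizer Gal(M/F) w.asIdeal = ⊥

/-- The inertia group of the prime `w` of `M` over `F` is trivial. -/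
def UnramifiedAt (w : HeightOneSpectrum (𝓞 M)) : Prop :=
  w.asIdeal.inertia Gal(M/F) = ⊥

variable (M)

/-- The extension `M` of `F` is admissible for the curve `y² = f(x)` with respect to `N`: it is Galois of
2-power degree; the decomposition groups of the primes of `M` over `N` are trivial; every embedding of `F`
in `ℝ` extends to `M`; `f` is irreducible modulo the primes of `F` below the primes of `M` with nontrivial
inertia group. -/
structure Admissible (N : ℕ) (f : (𝓞 F)[X]) : Prop where
  galois : IsGalois F M
  degree : ∃ n : ℕ, Module.finrank F M = 2 ^ n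
  split : ∀ w : HeightOneSpectrum (𝓞 M), (N : 𝓞 M) ∈ w.asIdeal → SplitAt F w
  real : ∀ σ : F →+* ℝ, ∃ ρ : M →+* ℝ, ρ.comp (algebraMap F M) = σ
  ramified : ∀ w : HeightOneSpectrum (𝓞 M), ¬ UnramifiedAt F w →
    Irreducible (f.map (Ideal.Quotient.mk (w.under (𝓞 F)).asIdeal))

/-- The prime numbers `l` such that `M(√l)` is admissible for every admissible field `M`. -/
def Steps (N : ℕ) (f : (𝓞 F)[X]) : Set ℕ := {l : ℕ | l.Prime ∧
  ∀ (M M' : Type) [Field M] [NumberField M] [Field M'] [NumberField M'] [Algebra F M]
    [Algebra M M'] [Algebra F M'] [IsScalarTower F M M'] (x : M'),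
    x ^ 2 = (l : M') → M⟮x⟯ = ⊤ → Admissible F M N f → Admissible F M' N f}

end admissible

section maps

/-- The polynomial `f` over the extension `E` of `F`. -/
noncomputable def polyOver {F : Type} [Field F] [NumberField F] (f : (𝓞 F)[X]) (E : Type) [Field E]
    [Algebra F E] : E[X] :=
  (f.map (algebraMap (𝓞 F) F)).map (algebraMap F E)

variable {E : Type} [Field E]

/-- `(P / R, Q / R ^ (g + 1))` is a rational map from the plane curve `G = 0` to the curve `y² = f(x)`,
where `f` has degree `n = 2 g + 1`: the polynomial `G(x, y)` divides `Q² - R ^ (2 g + 2) f(P / R)` but it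
does not divide `R`. -/
structure MapsTo (f : E[X]) (G P Q R : E[X][Y]) : Prop where
  dvd : G ∣ Q ^ 2 - R * ∑ i ∈ Finset.range (f.natDegree + 1),
    CC (f.coeff i) * P ^ i * R ^ (f.natDegree - i)
  den : ¬ G ∣ R

/-- The larger one of the Cauchy bounds for the zeros of the images under `τ` of the resultants of `G`
and `R` with respect to `y` and with respect to `x`. -/
noncomputable def bound (τ : E →+* ℂ) (G R : E[X][Y]) : ℝ≥0 :=
  max (cauchyBound ((G.resultant R).map τ))
    (cauchyBound (((Bivariate.swap G).resultant (Bivariate.swap R)).map τ))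

/-- If `G = 0` is an irreducible plane curve over `E`, where `G` has positive degree in both variables,
with a rational map `(P / R, Q / R ^ (g + 1))` to the curve `y² = f(x)`, then the points over `M` on
`G = 0` satisfy `R = 0`, and all the conjugates of their coordinates are less than the explicit bound. -/
def CoversBounded (f : E[X]) (M : Type) [Field M] [Algebra E M] : Prop :=
  ∀ G P Q R : E[X][Y], Irreducible G → 0 < G.natDegree → 0 < (Bivariate.swap G).natDegree →
    MapsTo f G P Q R → ∀ x y : M, aevalAeval x y G = 0 →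
      aevalAeval x y R = 0 ∧ ∀ σ : M →+* ℂ,
        ‖σ x‖₊ < bound (σ.comp (algebraMap E M)) G R ∧
        ‖σ y‖₊ < bound (σ.comp (algebraMap E M)) G R

end maps

/-- There is no point on `y² = f(x)` over `M`, and for every field `E` between `F` and `M` the points over
`M` on the plane curves over `E` with a rational map to `y² = f(x)` are explicitly bounded. -/
structure Effective {F : Type} [Field F] [NumberField F] (f : (𝓞 F)[X]) (M : Type) [Field M]
    [Algebra F M] : Prop where
  noPoint : ∀ x y : M, y ^ 2 ≠ (polyOver f M).eval x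
  covers : ∀ (E : Type) [Field E] [Algebra F E] [Algebra E M] [IsScalarTower F E M],
    CoversBounded (polyOver f E) M

/-- The constant `C_{2,0} = ∏_{j ≥ 0} (1 + 2^{-j})^{-1} = 0.2097…` of Poonen and Rains. -/
noncomputable def poonenRains : ℝ := ∏' j : ℕ, (1 + (2 : ℝ)⁻¹ ^ j)⁻¹

theorem adm_iff (F M : Type) [Field F] [NumberField F] [Field M] [NumberField M] [Algebra F M]
    (N : ℕ) (f : (𝓞 F)[X]) : Pool.Agent.H18N.AdmW F M N f ↔ Admissible F M N f :=
  ⟨fun h => ⟨h.galois, h.deg, h.split, h.real, h.ram⟩,
    fun h => ⟨h.galois, h.degree, h.split, h.real, h.ramified⟩⟩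

/-- Values of the homogenization. -/
theorem den_zero {M : Type} [Field M] {f : M[X]} (ho : Odd f.natDegree)
    (h : ∀ x y : M, y ^ 2 ≠ f.eval x) {p q r : M}
    (hpq : q ^ 2 = r * ∑ i ∈ Finset.range (f.natDegree + 1),
      f.coeff i * p ^ i * r ^ (f.natDegree - i)) : r = 0 := by
  by_contra hr
  obtain ⟨g, hg⟩ := ho
  apply h (p / r) (q / r ^ (g + 1))
  have h1 : ∑ i ∈ Finset.range (f.natDegree + 1), f.coeff i * p ^ i * r ^ (f.natDegree - i) =
      r ^ f.natDegree * f.eval (p / r) := by
    rw [eval_eq_sum_range, Finset.mul_sum]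
    refine Finset.sum_congr rfl fun i hi => ?_
    rw [Finset.mem_range] at hi
    have e : r ^ f.natDegree = r ^ i * r ^ (f.natDegree - i) := by
      rw [← pow_add]
      congr 1
      omega
    rw [e, div_pow]
    field_simp
  rw [div_pow, hpq, h1, hg]
  field_simp
  ring

theorem effective_of {F : Type} [Field F] [NumberField F] {f : (𝓞 F)[X]} (hm : f.Monic)
    (ho : Odd f.natDegree) (M : Type) [Field M] [Algebra F M]
    (h : ∀ x y : M, y ^ 2 ≠ (polyOver f M).eval x) : Effective f M := by
  refine ⟨h, ?_⟩
  intro E _ _ _ _ G P Q R hG hd hd' hmap x y hxy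
  have hdE : (polyOver f E).natDegree = f.natDegree := by
    rw [polyOver, natDegree_map, hm.natDegree_map]
  have hdM : (polyOver f M).natDegree = f.natDegree := by
    rw [polyOver, natDegree_map, hm.natDegree_map]
  have hco : ∀ i, algebraMap E M ((polyOver f E).coeff i) = (polyOver f M).coeff i := by
    intro i
    rw [polyOver, polyOver, coeff_map, coeff_map, coeff_map, coeff_map,
      ← IsScalarTower.algebraMap_apply F E M]
  have hR : aevalAeval x y R = 0 := by
    obtain ⟨T, hT⟩ := hmap.dvd
    have h1 := congrArg (aevalAeval x y) hT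
    rw [map_mul, hxy, zero_mul, map_sub, map_pow, map_mul, map_sum, sub_eq_zero] at h1
    refine den_zero (f := polyOver f M) (by rw [hdM]; exact ho) h (p := aevalAeval x y P) (h1.trans ?_)
    congr 1
    rw [hdE, hdM]
    refine Finset.sum_congr rfl fun i _ => ?_
    rw [map_mul, map_mul, map_pow, map_pow, ← hco]
    congr 2
    rw [aevalAeval_C, aeval_C]
  refine ⟨hR, fun σ => ⟨?_, ?_⟩⟩
  · exact (Pool.Agent.H14P.lt_bound hG hd hmap.den hxy hR σ).trans_le (le_max_left _ _)
  · exact (Pool.Agent.H14P.lt_bound' hG hd' hmap.den hxy hR σ).trans_le (le_max_right _ _)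

/-- **Near every curve.** Let `F` be a number field, `g ≥ 1`, `f₀` one of the curves, `n` an odd number (or
any positive number, if `y² = f₀(x)` is regular over two) and `ε > 0`. There are `N`, a union `R` of residue
classes modulo `N`, contained in the class of `f₀` modulo `n`, and `c > 0` such that all members of the family
of `N` and `R` are minimal and have infinitely many prime numbers `l` for which `M(√l)` is admissible for
every admissible `M`, and for all large `B` at least `c` times as many as all curves of height at most `B`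
are in the family, and the proportion of those in the family which are effective over EVERY admissible
`M` (no point over `M`, all points over `M` on all plane curves with a rational map to `y² = f(x)` are poles
of the map and are explicitly bounded) is at least `C_{2,0} - ε`. -/
theorem result (F : Type) [Field F] [NumberField F] (g : ℕ) (hg : 1 ≤ g) (f₀ : (𝓞 F)[X])
    (hf₀ : f₀ ∈ Curves F g) (n : ℕ) (hn : 0 < n) (hreg : Odd n ∨ RegularOverTwo f₀)
    (ε : ℝ) (hε : 0 < ε) :
    ∃ (N : ℕ) (R : Set (𝓞 F)[X]), 0 < N ∧ Periodic N R ∧ R ⊆ ClassOf n f₀ ∧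
      Family g N R ⊆ Curves F g ∧ (∀ f ∈ Family g N R, (Steps F N f).Infinite) ∧
      ∃ c : ℝ, 0 < c ∧ ∃ B₀ : ℝ, ∀ B : ℝ, B₀ ≤ B →
        (UpTo F g B).Finite ∧ 0 < (UpTo F g B).ncard ∧
        c * ((UpTo F g B).ncard : ℝ) ≤ ((UpTo F g B ∩ Family g N R).ncard : ℝ) ∧
        (poonenRains - ε) * ((UpTo F g B ∩ Family g N R).ncard : ℝ) ≤
          (({f ∈ UpTo F g B ∩ Family g N R | ∀ (M : Type) [Field M] [NumberField M] [Algebra F M],
            Admissible F M N f → Effective f M}).ncard : ℝ) := by
  obtain ⟨hm, hd, ht, hs, hmin⟩ := hf₀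
  obtain ⟨N, R, hN, h2N, hper, hcl, hrg, hfam, c, Y₀, hc, hY⟩ := Pool.Agent.H14N.nearP g F hg n hn f₀
    hm hd ht hmin hreg ε hε
  have hFam : ∀ f, Pool.Agent.H18N.Per.InFm g N R f ↔ f ∈ Family g N R := fun f =>
    ⟨fun h => ⟨h.mon, h.deg, h.tr, h.mem, h.ne, h.sqf⟩,
      fun h => ⟨h.1, h.2.1, h.2.2.1, h.2.2.2.1, h.2.2.2.2.1, h.2.2.2.2.2⟩⟩
  have hsubC : Family g N R ⊆ Curves F g := by
    intro f hf
    obtain ⟨h1, h2, h3⟩ := hfam f ((hFam f).2 hf)
    exact ⟨hf.1, hf.2.1, hf.2.2.1, h2.separable, h1⟩
  have hpr : Pool.Agent.H68K.PR.pr2 0 = poonenRains := by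
    show (∏' j : ℕ, (1 + (2 : ℝ)⁻¹ ^ j)⁻¹) * ∏ i ∈ Finset.range 0, (2 / ((2 : ℝ) ^ (i + 1) - 1)) = _
    rw [Finset.prod_range_zero, mul_one]
    rfl
  refine ⟨N, R, hN, ?_, ?_, hsubC, ?_, c, hc, Y₀, fun B hB => ?_⟩
  · intro f f' hf h
    exact hper f f' hf fun j => Ideal.mem_span_singleton.2 (h j)
  · intro f hf j
    exact Ideal.mem_span_singleton.1 (hcl f hf j)
  · intro f hf
    obtain ⟨-, -, h3⟩ := hfam f ((hFam f).2 hf)
    refine h3.mono ?_
    rintro l ⟨hl, h⟩
    exact ⟨hl, fun M M' _ _ _ _ _ _ _ _ x hx htop hM =>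
      (adm_iff F M' N f).1 (h M M' x hx htop ((adm_iff F M N f).2 hM))⟩
  obtain ⟨hfin, h7⟩ := hY B
  obtain ⟨h8, h9, h10⟩ := h7 hB
  have hsub : UpTo F g B ⊆ {f : (𝓞 F)[X] | Pool.Agent.H18G.HtR g B f} := by
    rintro f ⟨⟨h1, h2, h3, -, -⟩, h4⟩
    exact ⟨h1, h2, h3, h4⟩
  have hfinU : (UpTo F g B).Finite := hfin.subset hsub
  have hcard : ((UpTo F g B).ncard : ℝ) ≤
      ({f : (𝓞 F)[X] | Pool.Agent.H18G.HtR g B f}.ncard : ℝ) := by
    exact_mod_cast Set.ncard_le_ncard hsub hfin
  have hGe : {f : (𝓞 F)[X] | Pool.Agent.H18G.HtR g B f ∧ Pool.Agent.H18N.Per.InFm g N R f} =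
      UpTo F g B ∩ Family g N R := by
    ext f
    constructor
    · rintro ⟨h5, h6⟩
      exact ⟨⟨hsubC ((hFam f).1 h6), h5.ht⟩, (hFam f).1 h6⟩
    · rintro ⟨h5, h6⟩
      exact ⟨hsub h5, (hFam f).2 h6⟩
  rw [hGe] at h8 h9 h10
  set G : Set (𝓞 F)[X] := UpTo F g B ∩ Family g N R with hG
  have hGfin : G.Finite := hfinU.subset Set.inter_subset_left
  have hpos : 0 < (UpTo F g B).ncard :=
    h8.trans_le (Set.ncard_le_ncard Set.inter_subset_left hfinU)
  refine ⟨hfinU, hpos, (mul_le_mul_of_nonneg_left hcard hc.le).trans h9, ?_⟩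
  set A : Set (𝓞 F)[X] := {f ∈ G | ∀ (M : Type) [Field M] [NumberField M] [Algebra F M],
    Admissible F M N f → Effective f M} with hA
  set Z : Set (𝓞 F)[X] := {f : (𝓞 F)[X] | Pool.Agent.H18G.HtR g B f ∧
    Pool.Agent.H18N.Per.InFm g N R f ∧ ¬ Pool.Agent.H18N.Per.BdA F N 0 f} with hZ
  have h11 : G ⊆ A ∪ Z := by
    intro f hf
    have hI : Pool.Agent.H18N.Per.InFm g N R f := (hFam f).2 hf.2
    by_cases hb : Pool.Agent.H18N.Per.BdA F N 0 f
    · refine Or.inl ⟨hf, fun M _ _ _ hM => ?_⟩
      obtain ⟨-, h2, -⟩ := hfam f hI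
      refine effective_of hI.mon (by rw [hI.deg]; exact ⟨g, rfl⟩) M ?_
      have h5 := Pool.Agent.H14N.noPts hg hI.mon hI.deg h2 h2N (hrg f hI.mem) hb M
        ((adm_iff F M N f).2 hM)
      rw [Pool.Agent.H14F.fF_up] at h5
      exact h5
    · exact Or.inr ⟨hsub hf.1, hI, hb⟩
  have hAfin : A.Finite := hGfin.subset fun f hf => hf.1
  have hZfin : Z.Finite := hfin.subset fun f hf => hf.1
  have h12 : G.ncard ≤ A.ncard + Z.ncard :=
    (Set.ncard_le_ncard h11 (hAfin.union hZfin)).trans (Set.ncard_union_le _ _)
  have h13 : (G.ncard : ℝ) ≤ (A.ncard : ℝ) + (Z.ncard : ℝ) := by exact_mod_cast h12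
  rw [hpr] at h10
  linarith

end Pool.Agent.Results.MP_821da1_nt.NearEveryCurve
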