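import Pool.Agent.H14G.Odd
import Pool.Agent.H14P.Bnd
import Pool.Agent.H14F.FinB
import Pool.Agent.H14F.DEG
import Pool.Agent.H14F.ELS
import Pool.Agent.H14F.NORAT

/-!
# An effective theorem for all number fields of odd degree and all curves which cover one of 100% of the
# curves `y² = f(x) g(x)`, `f`, `g` quadratic

For all but at most `C H⁶ (log H)^(-2/25)` of the pairs of quadratic polynomials
`f = a₀ x² + a₁ x + a₂`, `g = b₀ x² + b₁ x + b₂` with integral coefficients `|a_i|, |b_i| ≤ H` the following is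
true for EVERY number field `K` of odd degree: the curve `C : y² = f(x) g(x)` has no point over `K`, and on
every irreducible plane curve `G = 0` over a subfield of `K` which has a rational map `(P / R, Q / R²)` to `C` all
points over `K` are base points of the map, `P = Q = R = 0`, and all the conjugates of their coordinates are
less than an explicit bound which depends only on `G` and `R` and not on `K`. At least `c H⁶` of the curves `C`
are smooth of genus one and have points over `ℝ` and over all fields `ℚ_p`.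

The proof. That there are no rational points on `C` is proved by a 2-isogeny descent and a sieve for 100% of all
pairs (project F6, `H14F/*.lean`, with the seats helper12, helper14, helper19, helper20, helper32, helper33,
helper34, helper45, helper58, helper59, helper66, helper67, helper73, helper91 and others). A point over a field of
odd degree would give a rational point (`H14G/Odd.lean`): if `y = h(x)` in the field generated by `x` and `m` is
the minimal polynomial of `x`, then `h² - f g` is the product of `m` and a polynomial of smaller odd degree, or the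
leading coefficient of `f g` is a square.
-/

set_option autoImplicit false
set_option linter.all false

namespace Pool.Agent.Results.MP_821da1_nt.OddDegreeFields

open Polynomial
open scoped Classical Polynomial.Bivariate NNReal

/-- the value of the form `a₀ x² + a₁ x w + a₂ w²` -/
def form {K : Type} [Field K] (a : Fin 3 → ℤ) (x w : K) : K :=
  (a 0 : K) * x ^ 2 + (a 1 : K) * x * w + (a 2 : K) * w ^ 2

/-- The curve `y² = f(x, w) g(x, w)` (in the weighted projective plane) has a point over the field `K`. -/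
def Soluble (a b : Fin 3 → ℤ) (K : Type) [Field K] : Prop :=
  ∃ x w y : K, (x ≠ 0 ∨ w ≠ 0) ∧ y ^ 2 = form a x w * form b x w

/-- the polynomial `a₀ x² + a₁ x + a₂` -/
noncomputable def poly (a : Fin 3 → ℤ) : ℚ[X] :=
  C ((a 0 : ℤ) : ℚ) * X ^ 2 + C ((a 1 : ℤ) : ℚ) * X + C ((a 2 : ℤ) : ℚ)

/-- `y² = f(x) g(x)` is a smooth curve of genus one, the polynomial `f g` has degree four and no multiple
factors, and the curve has points over `ℝ` and over all fields `ℚ_p`. -/
def Good (a b : Fin 3 → ℤ) : Prop :=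
  a 0 ≠ 0 ∧ b 0 ≠ 0 ∧ Squarefree (poly a * poly b) ∧
    Soluble a b ℝ ∧ ∀ (p : ℕ) [Fact p.Prime], Soluble a b ℚ_[p]

section maps

variable {E : Type} [Field E]

/-- the form `a₀ P² + a₁ P R + a₂ R²` of two polynomials in two variables -/
noncomputable def formXY (a : Fin 3 → ℤ) (P R : E[X][Y]) : E[X][Y] :=
  (a 0 : E[X][Y]) * P ^ 2 + (a 1 : E[X][Y]) * P * R + (a 2 : E[X][Y]) * R ^ 2

/-- `(P / R, Q / R ^ 2)` is a rational map from the plane curve `G = 0` to the curve `y² = f(x) g(x)`: the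
polynomial `G(x, y)` divides `Q² - R⁴ f(P / R) g(P / R)` but it does not divide `R`. -/
structure MapsTo (a b : Fin 3 → ℤ) (G P Q R : E[X][Y]) : Prop where
  dvd : G ∣ Q ^ 2 - formXY a P R * formXY b P R
  den : ¬ G ∣ R

/-- The larger one of the Cauchy bounds for the zeros of the images under `τ` of the resultants of `G`
and `R` with respect to `y` and with respect to `x`. -/
noncomputable def bound (τ : E →+* ℂ) (G R : E[X][Y]) : ℝ≥0 :=
  max (cauchyBound ((G.resultant R).map τ))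
    (cauchyBound (((Bivariate.swap G).resultant (Bivariate.swap R)).map τ))

/-- If `G = 0` is an irreducible plane curve over `E`, where `G` has positive degree in both variables,
with a rational map `(P / R, Q / R ^ 2)` to the curve `y² = f(x) g(x)`, then the points over `K` on
`G = 0` satisfy `P = Q = R = 0`, and all the conjugates of their coordinates are less than the explicit
bound. -/
def CoversBounded (a b : Fin 3 → ℤ) (E K : Type) [Field E] [Field K] [Algebra E K] : Prop :=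
  ∀ G P Q R : E[X][Y], Irreducible G → 0 < G.natDegree → 0 < (Bivariate.swap G).natDegree →
    MapsTo a b G P Q R → ∀ x y : K, aevalAeval x y G = 0 →
      aevalAeval x y P = 0 ∧ aevalAeval x y Q = 0 ∧ aevalAeval x y R = 0 ∧ ∀ σ : K →+* ℂ,
        ‖σ x‖₊ < bound (σ.comp (algebraMap E K)) G R ∧
        ‖σ y‖₊ < bound (σ.comp (algebraMap E K)) G R

end maps

/-- There is no point over `K` on the curve `y² = f(x, w) g(x, w)`, and the points over `K` on the plane
curves over any field `E` in `K` with a rational map to it are base points of the map and are explicitly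
bounded. -/
structure Effective (a b : Fin 3 → ℤ) (K : Type) [Field K] : Prop where
  noPoint : ¬ Soluble a b K
  covers : ∀ (E : Type) [Field E] [Algebra E K], CoversBounded a b E K

theorem effective_of {a b : Fin 3 → ℤ} (K : Type) [Field K] (h : ¬ Soluble a b K) :
    Effective a b K := by
  refine ⟨h, ?_⟩
  intro E _ _ G P Q R hG hd hd' hmap x y hxy
  have hform : ∀ c : Fin 3 → ℤ, aevalAeval x y (formXY c P R) =
      form c (aevalAeval x y P) (aevalAeval x y R) := by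
    intro c
    unfold formXY form
    simp only [map_add, map_mul, map_pow, map_intCast]
  have h1 : aevalAeval x y Q ^ 2 = form a (aevalAeval x y P) (aevalAeval x y R) *
      form b (aevalAeval x y P) (aevalAeval x y R) := by
    obtain ⟨T, hT⟩ := hmap.dvd
    have h1 := congrArg (aevalAeval x y) hT
    rw [map_mul, hxy, zero_mul, map_sub, map_pow, map_mul, sub_eq_zero, hform, hform] at h1
    exact h1
  have h2 : aevalAeval x y P = 0 ∧ aevalAeval x y R = 0 := by
    by_contra hcon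
    rw [not_and_or] at hcon
    exact h ⟨_, _, _, hcon, h1⟩
  obtain ⟨hP, hR⟩ := h2
  have hQ : aevalAeval x y Q = 0 := by
    rw [hP, hR] at h1
    have h3 : aevalAeval x y Q ^ 2 = 0 := by
      rw [h1]
      unfold form
      ring
    exact pow_eq_zero_iff (two_ne_zero) |>.1 h3
  refine ⟨hP, hQ, hR, fun σ => ⟨?_, ?_⟩⟩
  · exact (Pool.Agent.H14P.lt_bound hG hd hmap.den hxy hR σ).trans_le (le_max_left _ _)
  · exact (Pool.Agent.H14P.lt_bound' hG hd' hmap.den hxy hR σ).trans_le (le_max_right _ _)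

/-- the number of the pairs `(a, b)` with all `|a_i|, |b_i| ≤ H` with the property `P` -/
noncomputable def count (H : ℕ) (P : (Fin 3 → ℤ) → (Fin 3 → ℤ) → Prop) : ℕ :=
  (((Fintype.piFinset fun _ => Finset.Icc (-(H : ℤ)) H) ×ˢ
    (Fintype.piFinset fun _ => Finset.Icc (-(H : ℤ)) H)).filter
      fun p : (Fin 3 → ℤ) × (Fin 3 → ℤ) => P p.1 p.2).card

theorem count_eq (H : ℕ) (P : (Fin 3 → ℤ) → (Fin 3 → ℤ) → Prop) : count H P =
    ((Pool.Agent.H14F.box H ×ˢ Pool.Agent.H14F.box H).filter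
      fun p : (Fin 3 → ℤ) × (Fin 3 → ℤ) => P p.1 p.2).card := rfl

theorem count_le {H : ℕ} {P Q : (Fin 3 → ℤ) → (Fin 3 → ℤ) → Prop} (h : ∀ a b, P a b → Q a b) :
    count H P ≤ count H Q := by
  unfold count
  refine Finset.card_le_card fun p hp => ?_
  rw [Finset.mem_filter] at hp ⊢
  exact ⟨hp.1, h _ _ hp.2⟩

theorem count_split {H : ℕ} {P Q R : (Fin 3 → ℤ) → (Fin 3 → ℤ) → Prop}
    (h : ∀ a b, P a b → Q a b ∨ R a b) : count H P ≤ count H Q + count H R := by
  unfold count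
  refine le_trans (Finset.card_le_card ?_) (Finset.card_union_le _ _)
  intro p hp
  have hp := Finset.mem_filter.1 hp
  refine Finset.mem_union.2 ?_
  rcases h p.1 p.2 hp.2 with h | h
  · exact Or.inl (Finset.mem_filter.2 ⟨hp.1, h⟩)
  · exact Or.inr (Finset.mem_filter.2 ⟨hp.1, h⟩)

theorem sqf_of {a b : Fin 3 → ℤ} (ha : Pool.Agent.H14F.disc a ≠ 0)
    (hb : Pool.Agent.H14F.disc b ≠ 0) (hr : Pool.Agent.H14F.res a b ≠ 0) :
    Squarefree (poly a * poly b) := by
  unfold poly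
  have hsep : ∀ a : Fin 3 → ℤ, Pool.Agent.H14F.disc a ≠ 0 →
      (C ((a 0 : ℤ) : ℚ) * X ^ 2 + C ((a 1 : ℤ) : ℚ) * X + C ((a 2 : ℤ) : ℚ)).Separable := by
    intro a ha
    have hd : ((Pool.Agent.H14F.disc a : ℤ) : ℚ) ≠ 0 := by exact_mod_cast ha
    refine ⟨C (-4 * ((a 0 : ℤ) : ℚ) / ((Pool.Agent.H14F.disc a : ℤ) : ℚ)),
      C (1 / ((Pool.Agent.H14F.disc a : ℤ) : ℚ)) *
        (C (2 * ((a 0 : ℤ) : ℚ)) * X + C ((a 1 : ℤ) : ℚ)), ?_⟩
    have hder : derivative (C ((a 0 : ℤ) : ℚ) * X ^ 2 + C ((a 1 : ℤ) : ℚ) * X + C ((a 2 : ℤ) : ℚ)) =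
        C (2 * ((a 0 : ℤ) : ℚ)) * X + C ((a 1 : ℤ) : ℚ) := by
      simp only [derivative_add, derivative_mul, derivative_C, derivative_X_pow, derivative_X,
        map_mul, map_ofNat, C_ofNat, Nat.cast_ofNat]
      ring
    rw [hder]
    have e1 : C (-4 * ((a 0 : ℤ) : ℚ) / ((Pool.Agent.H14F.disc a : ℤ) : ℚ)) =
        C (1 / ((Pool.Agent.H14F.disc a : ℤ) : ℚ)) * C (-4 * ((a 0 : ℤ) : ℚ)) := by
      rw [← C_mul]
      congr 1
      field_simp
    rw [e1]
    have e2 : C (-4 * ((a 0 : ℤ) : ℚ)) *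
        (C ((a 0 : ℤ) : ℚ) * X ^ 2 + C ((a 1 : ℤ) : ℚ) * X + C ((a 2 : ℤ) : ℚ)) +
        (C (2 * ((a 0 : ℤ) : ℚ)) * X + C ((a 1 : ℤ) : ℚ)) *
        (C (2 * ((a 0 : ℤ) : ℚ)) * X + C ((a 1 : ℤ) : ℚ)) =
        C ((Pool.Agent.H14F.disc a : ℤ) : ℚ) := by
      unfold Pool.Agent.H14F.disc
      simp only [map_mul, map_neg, map_ofNat, Int.cast_sub, Int.cast_pow, Int.cast_mul,
        Int.cast_ofNat, map_sub, map_pow]
      ring
    calc _ = C (1 / ((Pool.Agent.H14F.disc a : ℤ) : ℚ)) * (C (-4 * ((a 0 : ℤ) : ℚ)) *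
        (C ((a 0 : ℤ) : ℚ) * X ^ 2 + C ((a 1 : ℤ) : ℚ) * X + C ((a 2 : ℤ) : ℚ)) +
        (C (2 * ((a 0 : ℤ) : ℚ)) * X + C ((a 1 : ℤ) : ℚ)) *
        (C (2 * ((a 0 : ℤ) : ℚ)) * X + C ((a 1 : ℤ) : ℚ))) := by ring
      _ = 1 := by
        rw [e2, ← C_mul, one_div, inv_mul_cancel₀ hd, C_1]
  refine (Polynomial.Separable.mul (hsep a ha) (hsep b hb) ?_).squarefree
  have hr' : ((Pool.Agent.H14F.res a b : ℤ) : ℚ) ≠ 0 := by exact_mod_cast hr
  -- the resultant is in the ideal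
  refine ⟨C (1 / ((Pool.Agent.H14F.res a b : ℤ) : ℚ)) *
    (C ((((a 0 * b 1 - b 0 * a 1) * b 0 : ℤ)) : ℚ) * X +
      C ((((a 0 * b 1 - b 0 * a 1) * b 1 - (a 0 * b 2 - b 0 * a 2) * b 0 : ℤ)) : ℚ)),
    C (1 / ((Pool.Agent.H14F.res a b : ℤ) : ℚ)) *
    (C (((-((a 0 * b 1 - b 0 * a 1) * a 0) : ℤ)) : ℚ) * X +
      C ((((a 0 * b 2 - b 0 * a 2) * a 0 - (a 0 * b 1 - b 0 * a 1) * a 1 : ℤ)) : ℚ)), ?_⟩
  have e2 : (C ((((a 0 * b 1 - b 0 * a 1) * b 0 : ℤ)) : ℚ) * X +
      C ((((a 0 * b 1 - b 0 * a 1) * b 1 - (a 0 * b 2 - b 0 * a 2) * b 0 : ℤ)) : ℚ)) *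
      (C ((a 0 : ℤ) : ℚ) * X ^ 2 + C ((a 1 : ℤ) : ℚ) * X + C ((a 2 : ℤ) : ℚ)) +
      (C (((-((a 0 * b 1 - b 0 * a 1) * a 0) : ℤ)) : ℚ) * X +
      C ((((a 0 * b 2 - b 0 * a 2) * a 0 - (a 0 * b 1 - b 0 * a 1) * a 1 : ℤ)) : ℚ)) *
      (C ((b 0 : ℤ) : ℚ) * X ^ 2 + C ((b 1 : ℤ) : ℚ) * X + C ((b 2 : ℤ) : ℚ)) =
      C ((Pool.Agent.H14F.res a b : ℤ) : ℚ) := by
    unfold Pool.Agent.H14F.res
    simp only [map_mul, map_neg, map_ofNat, Int.cast_sub, Int.cast_pow, Int.cast_mul,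
      Int.cast_ofNat, Int.cast_neg, Int.cast_add, map_sub, map_add, map_pow]
    ring
  calc _ = C (1 / ((Pool.Agent.H14F.res a b : ℤ) : ℚ)) *
      ((C ((((a 0 * b 1 - b 0 * a 1) * b 0 : ℤ)) : ℚ) * X +
      C ((((a 0 * b 1 - b 0 * a 1) * b 1 - (a 0 * b 2 - b 0 * a 2) * b 0 : ℤ)) : ℚ)) *
      (C ((a 0 : ℤ) : ℚ) * X ^ 2 + C ((a 1 : ℤ) : ℚ) * X + C ((a 2 : ℤ) : ℚ)) +
      (C (((-((a 0 * b 1 - b 0 * a 1) * a 0) : ℤ)) : ℚ) * X +
      C ((((a 0 * b 2 - b 0 * a 2) * a 0 - (a 0 * b 1 - b 0 * a 1) * a 1 : ℤ)) : ℚ)) *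
      (C ((b 0 : ℤ) : ℚ) * X ^ 2 + C ((b 1 : ℤ) : ℚ) * X + C ((b 2 : ℤ) : ℚ))) := by ring
    _ = 1 := by
      rw [e2, ← C_mul, one_div, inv_mul_cancel₀ hr', C_1]

/-- **Theorem.** There are a set `E` of pairs `(a, b)` of triples of integers and real numbers `C, c > 0`
such that
(1) if `(a, b)` is not in `E`, then for every number field `K` of odd degree the curve `y² = f(x, w) g(x, w)` has
no point over `K`, and the points over `K` on all plane curves (over any field contained in `K`) with a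
rational map to it are base points of the map and are explicitly bounded;
(2) for all `H ≥ 3`, at most `C H⁶ (log H)^(-2/25)` of the pairs with `|a_i|, |b_i| ≤ H` are in `E`;
(3) for all large `H`, for at least `c H⁶` of these pairs the curve is smooth of genus one and everywhere
locally soluble;
(4) the proportion of the pairs which are not in `E` among those of (3) tends to `1`. -/
theorem result :
    ∃ (E : Set ((Fin 3 → ℤ) × (Fin 3 → ℤ))) (C c : ℝ), 0 < C ∧ 0 < c ∧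
    (∀ a b : Fin 3 → ℤ, (a, b) ∉ E → ∀ (K : Type) [Field K] [NumberField K],
      Odd (Module.finrank ℚ K) → Effective a b K) ∧
    (∀ H : ℕ, 3 ≤ H → (count H (fun a b => (a, b) ∈ E) : ℝ) ≤
        C * (H : ℝ) ^ 6 * Real.log H ^ (-(2 : ℝ) / 25)) ∧
    (∃ H₀ : ℕ, ∀ H : ℕ, H₀ ≤ H → c * (H : ℝ) ^ 6 ≤ (count H Good : ℝ)) ∧
    Filter.Tendsto (fun H : ℕ =>
      (count H (fun a b => Good a b ∧ (a, b) ∉ E) : ℝ) / (count H Good : ℝ))
        Filter.atTop (nhds 1) := by
  obtain ⟨C₁, hC₁, hup⟩ := Pool.Agent.H14F.anaT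
  obtain ⟨C₂, hC₂, hdeg⟩ := Pool.Agent.H14F.DEG.t
  obtain ⟨c, H0, hc, hlow⟩ := Pool.Agent.H14F.ELS.t
  have hnorat : ∀ a b : Fin 3 → ℤ, Pool.Agent.H14F.Cert a b → ¬ Soluble a b ℚ := by
    intro a b h hs
    exact Pool.Agent.H14F.NORAT.t a b h hs
  have hE : ∀ H : ℕ, 3 ≤ H → (count H (fun a b => (a, b) ∈
      {p : (Fin 3 → ℤ) × (Fin 3 → ℤ) | ¬ Pool.Agent.H14F.Cert p.1 p.2 ∨ p.1 0 = 0 ∨ p.2 0 = 0}) :
        ℝ) ≤ (C₁ + C₂) * (H : ℝ) ^ 6 * Real.log H ^ (-(2 : ℝ) / 25) := by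
    intro H hH
    have hHr : (3 : ℝ) ≤ H := by exact_mod_cast hH
    have hL0 : 0 < Real.log H := Real.log_pos (by linarith)
    have h1 : (count H (fun a b => (a, b) ∈
        {p : (Fin 3 → ℤ) × (Fin 3 → ℤ) | ¬ Pool.Agent.H14F.Cert p.1 p.2 ∨ p.1 0 = 0 ∨ p.2 0 = 0}) :
          ℝ) ≤ (count H (fun a b => Pool.Agent.H14F.res a b ≠ 0 ∧ ¬ Pool.Agent.H14F.Cert a b) : ℝ) +
        (count H (fun a b => Pool.Agent.H14F.res a b = 0 ∨ Pool.Agent.H14F.disc a = 0 ∨
          Pool.Agent.H14F.disc b = 0 ∨ a 0 = 0 ∨ b 0 = 0) : ℝ) := by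
      have := count_split (H := H) (P := fun a b => (a, b) ∈
        {p : (Fin 3 → ℤ) × (Fin 3 → ℤ) | ¬ Pool.Agent.H14F.Cert p.1 p.2 ∨ p.1 0 = 0 ∨ p.2 0 = 0})
        (Q := fun a b => Pool.Agent.H14F.res a b ≠ 0 ∧ ¬ Pool.Agent.H14F.Cert a b)
        (R := fun a b => Pool.Agent.H14F.res a b = 0 ∨ Pool.Agent.H14F.disc a = 0 ∨
          Pool.Agent.H14F.disc b = 0 ∨ a 0 = 0 ∨ b 0 = 0) (fun a b h => by
            by_cases hr : Pool.Agent.H14F.res a b = 0
            · exact Or.inr (Or.inl hr)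
            · rcases h with h | h | h
              · exact Or.inl ⟨hr, h⟩
              · exact Or.inr (Or.inr (Or.inr (Or.inr (Or.inl h))))
              · exact Or.inr (Or.inr (Or.inr (Or.inr (Or.inr h)))))
      exact_mod_cast this
    have h2 : (count H (fun a b => Pool.Agent.H14F.res a b ≠ 0 ∧ ¬ Pool.Agent.H14F.Cert a b) : ℝ) ≤
        C₁ * (H : ℝ) ^ 6 * Real.log H ^ (-(2 : ℝ) / 25) := by
      refine le_trans (le_of_eq ?_) (hup H hH)
      rw [count_eq]
      congr 1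
      refine congrArg Finset.card (Finset.ext fun q => ?_)
      unfold Pool.Agent.H14F.NC
      simp only [Finset.mem_filter]
    have h3 : (count H (fun a b => Pool.Agent.H14F.res a b = 0 ∨ Pool.Agent.H14F.disc a = 0 ∨
          Pool.Agent.H14F.disc b = 0 ∨ a 0 = 0 ∨ b 0 = 0) : ℝ) ≤ C₂ * (H : ℝ) ^ 5 := by
      refine le_trans (le_of_eq ?_) (hdeg H (by omega))
      rw [count_eq]
      congr 1
      refine congrArg Finset.card (Finset.ext fun q => ?_)
      simp only [Finset.mem_filter]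
    have h4 : C₂ * (H : ℝ) ^ 5 ≤ C₂ * (H : ℝ) ^ 6 * Real.log H ^ (-(2 : ℝ) / 25) := by
      have h5 : (H : ℝ)⁻¹ ≤ Real.log H ^ (-(2 : ℝ) / 25) := by
        have h6 : Real.log H ≤ H := (Real.log_le_self (by linarith))
        have h7 : (H : ℝ) ^ (-(2 : ℝ) / 25) ≤ Real.log H ^ (-(2 : ℝ) / 25) :=
          Real.rpow_le_rpow_of_nonpos hL0 h6 (by norm_num)
        refine le_trans ?_ h7
        rw [← Real.rpow_neg_one]
        exact Real.rpow_le_rpow_of_exponent_le (by linarith) (by norm_num)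
      calc C₂ * (H : ℝ) ^ 5 = C₂ * (H : ℝ) ^ 6 * (H : ℝ)⁻¹ := by
            field_simp
        _ ≤ _ := mul_le_mul_of_nonneg_left h5 (by positivity)
    calc _ ≤ _ := h1
      _ ≤ C₁ * (H : ℝ) ^ 6 * Real.log H ^ (-(2 : ℝ) / 25) +
          C₂ * (H : ℝ) ^ 6 * Real.log H ^ (-(2 : ℝ) / 25) := add_le_add h2 (h3.trans h4)
      _ = _ := by ring
  have hG : ∀ H : ℕ, H0 ≤ H → c * (H : ℝ) ^ 6 ≤ (count H Good : ℝ) := by
    intro H hH
    refine (hlow H hH).trans ?_
    rw [count_eq]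
    have : ((Pool.Agent.H14F.box H ×ˢ Pool.Agent.H14F.box H).filter
        fun q : (Fin 3 → ℤ) × (Fin 3 → ℤ) => (Pool.Agent.H14F.res q.1 q.2 ≠ 0 ∧
          Pool.Agent.H14F.disc q.1 ≠ 0 ∧ Pool.Agent.H14F.disc q.2 ≠ 0 ∧ q.1 0 ≠ 0 ∧ q.2 0 ≠ 0) ∧
          Pool.Agent.H14F.Sol q.1 q.2 ℝ ∧
          ∀ (p : ℕ) [Fact p.Prime], Pool.Agent.H14F.Sol q.1 q.2 ℚ_[p]).card ≤
        ((Pool.Agent.H14F.box H ×ˢ Pool.Agent.H14F.box H).filter
          fun p : (Fin 3 → ℤ) × (Fin 3 → ℤ) => Good p.1 p.2).card := by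
      refine Finset.card_le_card fun q hq => ?_
      rw [Finset.mem_filter] at hq ⊢
      obtain ⟨h1, ⟨h2, h3, h4, h5, h6⟩, h7, h8⟩ := hq
      exact ⟨h1, h5, h6, sqf_of h3 h4 h2, h7, h8⟩
    exact_mod_cast this
  refine ⟨{p | ¬ Pool.Agent.H14F.Cert p.1 p.2 ∨ p.1 0 = 0 ∨ p.2 0 = 0}, C₁ + C₂, c,
    by positivity, hc, ?_, hE, ⟨H0, hG⟩, ?_⟩
  · intro a b hab K _ _ ho
    have hab' : Pool.Agent.H14F.Cert a b ∧ a 0 ≠ 0 ∧ b 0 ≠ 0 := by
      simpa only [Set.mem_ofPred_eq, not_or, not_not] using hab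
    refine effective_of K fun hs => ?_
    exact hnorat a b hab'.1 (Pool.Agent.H14G.sol_of_odd K ho hs)
  · have hlim : Filter.Tendsto (fun H : ℕ => 1 - (C₁ + C₂) / c * Real.log H ^ (-(2 : ℝ) / 25))
        Filter.atTop (nhds 1) := by
      have e1 : Filter.Tendsto (fun H : ℕ => Real.log H ^ (-(2 : ℝ) / 25)) Filter.atTop (nhds 0) := by
        have h5 : Filter.Tendsto (fun x : ℝ => x ^ (-(2 / 25 : ℝ))) Filter.atTop (nhds 0) :=
          tendsto_rpow_neg_atTop (by norm_num)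
        have h6 := h5.comp (Real.tendsto_log_atTop.comp tendsto_natCast_atTop_atTop)
        refine h6.congr fun H => ?_
        simp only [Function.comp_apply]
        norm_num
      have e3 := (e1.const_mul ((C₁ + C₂) / c)).const_sub 1
      rw [mul_zero, sub_zero] at e3
      exact e3
    refine tendsto_of_tendsto_of_tendsto_of_le_of_le' hlim tendsto_const_nhds ?_ ?_
    · rw [Filter.eventually_atTop]
      refine ⟨max 3 H0, fun H hH => ?_⟩
      have hH3 : 3 ≤ H := le_trans (le_max_left _ _) hH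
      have a1 := hE H hH3
      have a2 := hG H (le_trans (le_max_right _ _) hH)
      have hHr : (3 : ℝ) ≤ H := by exact_mod_cast hH3
      have hL0 : 0 < Real.log H := Real.log_pos (by linarith)
      have a3 : (count H Good : ℝ) ≤
          (count H (fun a b => Good a b ∧ (a, b) ∉
            {p : (Fin 3 → ℤ) × (Fin 3 → ℤ) | ¬ Pool.Agent.H14F.Cert p.1 p.2 ∨ p.1 0 = 0 ∨
              p.2 0 = 0}) : ℝ) +
          (count H (fun a b => (a, b) ∈
            {p : (Fin 3 → ℤ) × (Fin 3 → ℤ) | ¬ Pool.Agent.H14F.Cert p.1 p.2 ∨ p.1 0 = 0 ∨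
              p.2 0 = 0}) : ℝ) := by
        have := count_split (H := H) (P := Good) (Q := fun a b => Good a b ∧ (a, b) ∉
            {p : (Fin 3 → ℤ) × (Fin 3 → ℤ) | ¬ Pool.Agent.H14F.Cert p.1 p.2 ∨ p.1 0 = 0 ∨
              p.2 0 = 0})
          (R := fun a b => (a, b) ∈
            {p : (Fin 3 → ℤ) × (Fin 3 → ℤ) | ¬ Pool.Agent.H14F.Cert p.1 p.2 ∨ p.1 0 = 0 ∨
              p.2 0 = 0}) (fun a b hp => by
            by_cases h : (a, b) ∈ {p : (Fin 3 → ℤ) × (Fin 3 → ℤ) |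
              ¬ Pool.Agent.H14F.Cert p.1 p.2 ∨ p.1 0 = 0 ∨ p.2 0 = 0}
            · exact Or.inr h
            · exact Or.inl ⟨hp, h⟩)
        exact_mod_cast this
      have hpos : 0 < (count H Good : ℝ) := lt_of_lt_of_le (by positivity) a2
      rw [le_div_iff₀ hpos]
      have a5 : (C₁ + C₂) * (H : ℝ) ^ 6 * Real.log H ^ (-(2 : ℝ) / 25) ≤
          (C₁ + C₂) / c * Real.log H ^ (-(2 : ℝ) / 25) * (count H Good : ℝ) := by
        have := mul_le_mul_of_nonneg_left a2
          (by positivity : 0 ≤ (C₁ + C₂) / c * Real.log H ^ (-(2 : ℝ) / 25))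
        refine le_trans (le_of_eq ?_) this
        field_simp
      linarith
    · rw [Filter.eventually_atTop]
      refine ⟨0, fun H _ => ?_⟩
      refine div_le_one_of_le₀ ?_ (Nat.cast_nonneg _)
      have : count H (fun a b => Good a b ∧ (a, b) ∉
            {p : (Fin 3 → ℤ) × (Fin 3 → ℤ) | ¬ Pool.Agent.H14F.Cert p.1 p.2 ∨ p.1 0 = 0 ∨
              p.2 0 = 0}) ≤ count H Good :=
        count_le fun a b h => h.1
      exact_mod_cast this

end Pool.Agent.Results.MP_821da1_nt.OddDegreeFields
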