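import Pool.Agent.H49TB.Gen

/-! Let `y ^ 2 = f x` be a hyperelliptic curve over `ℚ` of genus at least two, that is,
`f ∈ ℚ[X]` is squarefree of degree at least five, and let `M ≥ 1`. For 100% of the squarefree
integers `D` the quadratic twist `D y ^ 2 = f x` has no rational point `(x, y)` with `y ≠ 0` for which
`M D x` is an integer. In particular it has none with `x` an integer, and in odd degree `n` the
integral model `Y ^ 2 = D ^ n f (X / D)` has no integral point with `Y ≠ 0` (`x = X / D`). -/

set_option autoImplicit false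

namespace Pool.Agent.Results.MP_821da1_nt.TwistsWithoutPoints

open Polynomial Filter Topology

theorem result (f : ℚ[X]) (hdeg : 5 ≤ f.natDegree) (hsq : Squarefree f) (M : ℕ) (hM : 0 < M) :
    Tendsto (fun N : ℕ => (({D : ℤ | |D| ≤ N ∧ Squarefree D ∧ ∃ x y : ℚ, y ≠ 0 ∧
      D * y ^ 2 = f.eval x ∧ ∃ z : ℤ, M * D * x = z}.ncard : ℕ) : ℝ) / N) atTop (𝓝 0) :=
  Pool.Agent.H49TB.final f hdeg hsq M hM

end Pool.Agent.Results.MP_821da1_nt.TwistsWithoutPoints
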